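import Pool.Agent.Lib.MP_49fa77_co.H30.Iface

/-!
# DI: generic directions
-/

set_option autoImplicit false

namespace FT58.AS

open Real MeasureTheory Set Metric Filter Relation FT58

theorem di_aux : ∀ (P : Finset ℂ), (∀ d ∈ P, d ≠ 0) → ∀ (e₀ : ℂ) (η : ℝ), 0 < η →
    ∃ e : ℂ, ‖e - e₀‖ < η ∧ ∀ d ∈ P, dt d e ≠ 0 := by
  classical
  intro P hP e₀ η hη
  -- the line e₀ + s (1 + m i): choose the slope m first, then s
  -- slope: (1, m) with d.re + m d.im ≠ 0 for all d in P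
  have h1 : ∃ m : ℝ, ∀ d ∈ P, d.re + m * d.im ≠ 0 := by
    obtain ⟨m, hm⟩ := Infinite.exists_notMem_finset (P.image fun d => -d.re / d.im)
    refine ⟨m, fun d hd h => ?_⟩
    by_cases h0 : d.im = 0
    · rw [h0] at h
      exact hP d hd (Complex.ext (by simpa using h) (by simpa using h0))
    · apply hm
      rw [Finset.mem_image]
      refine ⟨d, hd, ?_⟩
      field_simp
      linarith
  obtain ⟨m, hm⟩ := h1
  have h2 : ∃ s : ℝ, s ∈ Set.Ioo 0 (η / (‖(⟨1, m⟩ : ℂ)‖ + 1)) ∧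
      s ∉ (P.image fun d => -(dt d e₀) / (d.re + m * d.im)) := by
    have hinf : (Set.Ioo 0 (η / (‖(⟨1, m⟩ : ℂ)‖ + 1))).Infinite :=
      Set.Ioo_infinite (by positivity)
    exact hinf.exists_notMem_finset _
  obtain ⟨s, ⟨hs0, hs1⟩, hs2⟩ := h2
  refine ⟨e₀ + (s : ℂ) * (⟨1, m⟩ : ℂ), ?_, fun d hd h => hs2 ?_⟩
  · rw [add_sub_cancel_left, norm_mul, Complex.norm_real, Real.norm_eq_abs, abs_of_pos hs0]
    have hp : 0 < ‖(⟨1, m⟩ : ℂ)‖ + 1 := by positivity
    rw [lt_div_iff₀ hp] at hs1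
    nlinarith [norm_nonneg (⟨1, m⟩ : ℂ)]
  · rw [Finset.mem_image]
    refine ⟨d, hd, ?_⟩
    have hne := hm d hd
    have h' : dt d e₀ + s * (d.re + m * d.im) = 0 := by
      have : dt d (e₀ + (s : ℂ) * (⟨1, m⟩ : ℂ)) = dt d e₀ + s * (d.re + m * d.im) := by
        simp [dt]
        ring
      rw [← this]
      exact h
    field_simp
    linarith

theorem di : DiS := by
  classical
  intro S e₀ η hη
  obtain ⟨e, he, h⟩ := di_aux (((S ×ˢ S).filter fun p => p.1 ≠ p.2).image fun p => p.1 - p.2)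
    (by
      intro d hd
      simp only [Finset.mem_image, Finset.mem_filter, Finset.mem_product, Prod.exists] at hd
      obtain ⟨a, b, ⟨-, hab⟩, rfl⟩ := hd
      exact sub_ne_zero.mpr hab) e₀ η hη
  refine ⟨e, he, fun x hx y hy hxy => h _ ?_⟩
  simp only [Finset.mem_image, Finset.mem_filter, Finset.mem_product, Prod.exists]
  exact ⟨x, y, ⟨⟨hx, hy⟩, hxy⟩, rfl⟩
end FT58.AS
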